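import Mathlib

/-!
# MP_cb2a9f_co: a self-dual minor-closed class containing all independence spaces

For every infinite set `S` the spaces which are finitary or dual to a finitary B-matroid form an
admissible system which contains all independence spaces, and which does not contain all
B-matroids: the direct sum of a uniform B-matroid of rank one on an infinite set and of an
infinite circuit is neither finitary nor dual to a finitary B-matroid.
-/

set_option autoImplicit false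

open Set

open scoped Matroid

namespace Pool.Agent.Results.MP_cb2a9f_co.FinitaryOrDual

universe u

variable {α : Type u}

/-- `B` is a basis of the family `𝓘`: a maximal member. -/
def IsBasisOf (𝓘 : Set (Set α)) (B : Set α) : Prop :=
  B ∈ 𝓘 ∧ ∀ Y ∈ 𝓘, B ⊆ Y → Y = B

/-- The restriction `𝓘 | Z`. -/
def restr (𝓘 : Set (Set α)) (Z : Set α) : Set (Set α) := {Y | Y ⊆ Z ∧ Y ∈ 𝓘}

/-- The contraction `𝓘 . Z`, computed with the set `B`. -/
def contr (𝓘 : Set (Set α)) (Z B : Set α) : Set (Set α) := {Y | Y ⊆ Z ∧ Y ∪ B ∈ 𝓘}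

/-- The dual of the family `𝓘` of subsets of `W`. -/
def dual (W : Set α) (𝓘 : Set (Set α)) : Set (Set α) :=
  {X | X ⊆ W ∧ ∃ B, IsBasisOf 𝓘 B ∧ B ⊆ W \ X}

/-- `(W, 𝓘)` is a pre-independence space. -/
structure IsPreIndependenceSpace (W : Set α) (𝓘 : Set (Set α)) : Prop where
  subset_ground : ∀ Y ∈ 𝓘, Y ⊆ W
  empty_mem : ∅ ∈ 𝓘
  subset_mem : ∀ Y ∈ 𝓘, ∀ X ⊆ Y, X ∈ 𝓘
  augment : ∀ I₁ ∈ 𝓘, ∀ I₂ ∈ 𝓘, I₁.Finite → I₂.Finite → I₁.ncard < I₂.ncard →
    ∃ e ∈ I₂ \ I₁, I₁ ∪ {e} ∈ 𝓘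

/-- `(W, 𝓘)` is an independence space. -/
structure IsIndependenceSpace (W : Set α) (𝓘 : Set (Set α)) : Prop extends
    IsPreIndependenceSpace W 𝓘 where
  compact : ∀ Y ⊆ W, (∀ F ⊆ Y, F.Finite → F ∈ 𝓘) → Y ∈ 𝓘

/-- `(W, 𝓘)` is a B-matroid. -/
structure IsBMatroid (W : Set α) (𝓘 : Set (Set α)) : Prop where
  subset_ground : ∀ Y ∈ 𝓘, Y ⊆ W
  empty_mem : ∅ ∈ 𝓘
  subset_mem : ∀ Y ∈ 𝓘, ∀ X ⊆ Y, X ∈ 𝓘
  ib1 : ∀ X ⊆ W, ∀ T ∈ 𝓘, T ⊆ X → ∃ B, IsBasisOf (restr 𝓘 X) B ∧ T ⊆ B
  ib2 : ∀ X ⊆ W, ∀ B₁ B₂, IsBasisOf (restr 𝓘 X) B₁ → IsBasisOf (restr 𝓘 X) B₂ →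
    ∀ x ∈ B₁ \ B₂, ∃ y ∈ B₂ \ B₁, IsBasisOf (restr 𝓘 X) ((B₁ \ {x}) ∪ {y})

/-- `D` is an admissible system on the set `S = α`. -/
structure IsAdmissible (D : Set α → Set (Set (Set α))) : Prop where
  pre : ∀ W, ∀ 𝓘 ∈ D W, IsPreIndependenceSpace W 𝓘
  restr_mem : ∀ W, ∀ 𝓘 ∈ D W, ∀ Z ⊆ W, restr 𝓘 Z ∈ D Z
  contr_exists : ∀ W, ∀ 𝓘 ∈ D W, ∀ Z ⊆ W, ∃ B, IsBasisOf (restr 𝓘 (W \ Z)) B
  contr_unique : ∀ W, ∀ 𝓘 ∈ D W, ∀ Z ⊆ W, ∀ B B', IsBasisOf (restr 𝓘 (W \ Z)) B →
    IsBasisOf (restr 𝓘 (W \ Z)) B' → contr 𝓘 Z B = contr 𝓘 Z B'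
  contr_mem : ∀ W, ∀ 𝓘 ∈ D W, ∀ Z ⊆ W, ∀ B, IsBasisOf (restr 𝓘 (W \ Z)) B → contr 𝓘 Z B ∈ D Z
  dual_mem : ∀ W, ∀ 𝓘 ∈ D W, dual W 𝓘 ∈ D W
  dual_dual : ∀ W, ∀ 𝓘 ∈ D W, dual W (dual W 𝓘) = 𝓘

/-- The independent sets of a matroid. -/
def indeps (M : Matroid α) : Set (Set α) := {X | M.Indep X}

theorem isBasisOf_restr (M : Matroid α) {X B : Set α} (hX : X ⊆ M.E) :
    IsBasisOf (restr (indeps M) X) B ↔ M.IsBasis B X := by
  rw [Matroid.isBasis_iff_maximal hX, maximal_iff]
  constructor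
  · rintro ⟨⟨h1, h2⟩, h3⟩
    exact ⟨⟨h2, h1⟩, fun Y hY hBY => (h3 Y ⟨hY.2, hY.1⟩ hBY).symm⟩
  · rintro ⟨⟨h1, h2⟩, h3⟩
    exact ⟨⟨h2, h1⟩, fun Y hY hBY => (h3 ⟨hY.2, hY.1⟩ hBY).symm⟩

theorem isBasisOf_indeps (M : Matroid α) {B : Set α} :
    IsBasisOf (indeps M) B ↔ M.IsBase B := by
  rw [Matroid.isBase_iff_maximal_indep, maximal_iff]
  constructor
  · rintro ⟨h1, h2⟩
    exact ⟨h1, fun Y hY hBY => (h2 Y hY hBY).symm⟩
  · rintro ⟨h1, h2⟩
    exact ⟨h1, fun Y hY hBY => (h2 hY hBY).symm⟩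

theorem isPre_indeps (M : Matroid α) : IsPreIndependenceSpace M.E (indeps M) where
  subset_ground := fun _ hY => Matroid.Indep.subset_ground hY
  empty_mem := M.empty_indep
  subset_mem := fun _ hY _ hXY => Matroid.Indep.subset hY hXY
  augment := by
    intro I₁ h1 I₂ h2 f1 f2 hlt
    obtain ⟨e, he, h⟩ := Matroid.Indep.augment h1 h2 (by
      rw [← f1.cast_ncard_eq, ← f2.cast_ncard_eq]; exact_mod_cast hlt)
    exact ⟨e, he, by rw [union_singleton]; exact h⟩

theorem isBMatroid_indeps (M : Matroid α) : IsBMatroid M.E (indeps M) where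
  subset_ground := fun _ hY => Matroid.Indep.subset_ground hY
  empty_mem := M.empty_indep
  subset_mem := fun _ hY _ hXY => Matroid.Indep.subset hY hXY
  ib1 := by
    intro X hX T hT hTX
    obtain ⟨B, hB, hTB⟩ := Matroid.Indep.subset_isBasis_of_subset hT hTX hX
    exact ⟨B, (isBasisOf_restr M hX).2 hB, hTB⟩
  ib2 := by
    intro X hX B₁ B₂ h1 h2 x hx
    rw [isBasisOf_restr M hX] at h1 h2
    obtain ⟨y, hy, h⟩ := h1.isBase_restrict.exchange h2.isBase_restrict hx
    refine ⟨y, hy, ?_⟩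
    rw [isBasisOf_restr M hX, union_singleton]
    exact (Matroid.isBase_restrict_iff hX).1 h

theorem restr_indeps (M : Matroid α) {Z : Set α} : restr (indeps M) Z = indeps (M ↾ Z) := by
  ext X
  simp only [restr, indeps, Set.mem_ofPred_eq, Matroid.restrict_indep_iff]
  exact and_comm

theorem contr_indeps (M : Matroid α) {Z B : Set α} (_ : Z ⊆ M.E)
    (hB : M.IsBasis B (M.E \ Z)) : contr (indeps M) Z B = indeps (M ／ (M.E \ Z)) := by
  ext X
  simp only [contr, indeps, Set.mem_ofPred_eq]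
  rw [hB.contract_indep_iff, and_comm]
  apply and_congr_right
  intro h
  have hXE : X ⊆ M.E := subset_union_left.trans h.subset_ground
  constructor
  · intro hXZ
    rw [Set.disjoint_left]
    intro x hx hxX
    exact hx.2 (hXZ hxX)
  · intro hd x hx
    by_contra hxZ
    exact Set.disjoint_left.1 hd ⟨hXE hx, hxZ⟩ hx

theorem dual_indeps (M : Matroid α) : dual M.E (indeps M) = indeps M✶ := by
  ext X
  simp only [dual, indeps, Set.mem_ofPred_eq]
  rw [Matroid.dual_indep_iff_exists']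
  apply and_congr_right
  intro hX
  constructor
  · rintro ⟨B, hB, hBX⟩
    exact ⟨B, (isBasisOf_indeps M).1 hB, (disjoint_of_subset_left hBX disjoint_sdiff_left).symm⟩
  · rintro ⟨B, hB, hBX⟩
    exact ⟨B, (isBasisOf_indeps M).2 hB, subset_sdiff.2 ⟨hB.subset_ground, hBX.symm⟩⟩

/-- The system of the matroids which are finitary or the dual of a finitary one. -/
def D (W : Set α) : Set (Set (Set α)) :=
  {𝓘 | ∃ M : Matroid α, M.E = W ∧ (M.Finitary ∨ M✶.Finitary) ∧ 𝓘 = indeps M}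

theorem isAdmissible_D : IsAdmissible (D : Set α → Set (Set (Set α))) where
  pre := by
    rintro W _ ⟨M, rfl, -, rfl⟩
    exact isPre_indeps M
  restr_mem := by
    rintro W _ ⟨M, rfl, hM, rfl⟩ Z hZ
    refine ⟨M ↾ Z, rfl, ?_, restr_indeps M⟩
    rcases hM with h | h
    · exact Or.inl inferInstance
    · right
      have : (M ↾ Z)✶ = M✶ ／ (M.E \ Z) := by
        rw [← Matroid.dual_delete, Matroid.delete_compl hZ]
      rw [this]
      infer_instance
  contr_exists := by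
    rintro W _ ⟨M, rfl, -, rfl⟩ Z hZ
    obtain ⟨B, hB⟩ := M.exists_isBasis (M.E \ Z) sdiff_subset
    exact ⟨B, (isBasisOf_restr M sdiff_subset).2 hB⟩
  contr_unique := by
    rintro W _ ⟨M, rfl, -, rfl⟩ Z hZ B B' hB hB'
    rw [isBasisOf_restr M sdiff_subset] at hB hB'
    rw [contr_indeps M hZ hB, contr_indeps M hZ hB']
  contr_mem := by
    rintro W _ ⟨M, rfl, hM, rfl⟩ Z hZ B hB
    rw [isBasisOf_restr M sdiff_subset] at hB
    refine ⟨M ／ (M.E \ Z), ?_, ?_, contr_indeps M hZ hB⟩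
    · rw [Matroid.contract_ground, sdiff_sdiff_cancel_left hZ]
    · rcases hM with h | h
      · exact Or.inl inferInstance
      · right
        rw [Matroid.dual_contract]
        infer_instance
  dual_mem := by
    rintro W _ ⟨M, rfl, hM, rfl⟩
    refine ⟨M✶, rfl, ?_, dual_indeps M⟩
    rw [Matroid.dual_dual]
    exact hM.symm
  dual_dual := by
    rintro W _ ⟨M, rfl, -, rfl⟩
    rw [dual_indeps M]
    have := dual_indeps M✶
    rw [Matroid.dual_ground, Matroid.dual_dual] at this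
    exact this

theorem mem_D_of_isIndependenceSpace {W : Set α} {𝓘 : Set (Set α)}
    (h : IsIndependenceSpace W 𝓘) : 𝓘 ∈ D W := by
  refine ⟨(IndepMatroid.ofFinitaryCardAugment W (fun X => X ∈ 𝓘) h.empty_mem
    (fun I J hJ hIJ => h.subset_mem J hJ I hIJ) ?_ ?_ h.subset_ground).matroid, rfl,
    Or.inl inferInstance, rfl⟩
  · intro I J hI hIf hJ hJf hlt
    obtain ⟨e, he, h'⟩ := h.augment I hI J hJ hIf hJf hlt
    exact ⟨e, he.1, he.2, by rwa [union_singleton] at h'⟩
  · intro I hI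
    refine h.compact I ?_ hI
    intro x hx
    exact h.subset_ground {x} (hI {x} (singleton_subset_iff.2 hx) (finite_singleton x)) rfl

/-- The uniform matroid of rank one on `A` (of rank zero if `A` is empty). -/
def U (A : Set α) : Matroid α :=
  (IndepMatroid.ofFinitaryCardAugment A (fun X => X ⊆ A ∧ X.Subsingleton)
    ⟨empty_subset _, subsingleton_empty⟩
    (fun _ _ hJ hIJ => ⟨hIJ.trans hJ.1, hJ.2.anti hIJ⟩)
    (by
      rintro I J hI hIf hJ hJf hlt
      have h1 : J.ncard ≤ 1 := by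
        have := hJf.to_subtype
        exact Set.ncard_le_one_iff_subsingleton.2 hJ.2
      have h2 : I = ∅ := (Set.ncard_eq_zero hIf).1 (by omega)
      have h3 : J.Nonempty := (Set.ncard_pos hJf).1 (by omega)
      obtain ⟨e, he⟩ := h3
      subst h2
      exact ⟨e, he, by simp, by simpa using hJ.1 he, by simp⟩)
    (by
      intro I hI
      constructor
      · intro x hx
        exact (hI {x} (singleton_subset_iff.2 hx) (finite_singleton x)).1 rfl
      · intro x hx y hy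
        exact (hI {x, y} (by rintro z (rfl | rfl) <;> assumption) (by simp)).2 (by simp)
          (by simp))
    (fun _ h => h.1)).matroid

theorem U_indep {A X : Set α} : (U A).Indep X ↔ X ⊆ A ∧ X.Subsingleton := Iff.rfl

theorem U_ground {A : Set α} : (U A).E = A := rfl

theorem U_isBase {A X : Set α} (hA : A.Nonempty) : (U A).IsBase X ↔ ∃ a ∈ A, X = {a} := by
  rw [Matroid.isBase_iff_maximal_indep, maximal_iff]
  constructor
  · rintro ⟨⟨h1, h2⟩, h3⟩
    rcases h2.eq_empty_or_singleton with rfl | ⟨a, rfl⟩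
    · obtain ⟨a, ha⟩ := hA
      have := h3 (y := {a}) ⟨singleton_subset_iff.2 ha, subsingleton_singleton⟩ (empty_subset _)
      exact ⟨a, ha, this⟩
    · exact ⟨a, h1 rfl, rfl⟩
  · rintro ⟨a, ha, rfl⟩
    refine ⟨⟨singleton_subset_iff.2 ha, subsingleton_singleton⟩, fun Y hY haY => ?_⟩
    have h1 := U_indep.1 hY
    rcases h1.2.eq_empty_or_singleton with rfl | ⟨b, rfl⟩
    · exact absurd (haY rfl) (by simp)
    · have : a ∈ ({b} : Set α) := haY rfl
      rw [mem_singleton_iff.1 this]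

/-- The direct sum of the uniform matroid of rank one on `A` and of the circuit `Aᶜ`. -/
def N (A : Set α) : Matroid α := (U A).disjointSum (U Aᶜ)✶ disjoint_compl_right

theorem N_ground (A : Set α) : (N A).E = univ := by
  rw [N, Matroid.disjointSum_ground_eq]
  exact union_compl_self A

theorem N_indep {A X : Set α} (hA : Aᶜ.Nonempty) :
    (N A).Indep X ↔ (X ∩ A).Subsingleton ∧ ∃ c ∈ Aᶜ, c ∉ X := by
  rw [N, Matroid.disjointSum_indep_iff, U_indep, Matroid.dual_ground, U_ground,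
    Matroid.dual_indep_iff_exists']
  constructor
  · rintro ⟨⟨-, h1⟩, ⟨-, B, hB, hd⟩, -⟩
    refine ⟨h1, ?_⟩
    obtain ⟨c, hc, rfl⟩ := (U_isBase hA).1 hB
    exact ⟨c, hc, fun h => Set.disjoint_left.1 hd ⟨h, hc⟩ rfl⟩
  · rintro ⟨h1, c, hc, hcX⟩
    refine ⟨⟨inter_subset_right, h1⟩, ⟨inter_subset_right, {c}, (U_isBase hA).2 ⟨c, hc, rfl⟩,
      ?_⟩, ?_⟩
    · rw [disjoint_singleton_right]
      exact fun h => hcX h.1
    · rw [U_ground, union_compl_self]
      exact subset_univ _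

theorem not_mem_D {A : Set α} (hA : A.Infinite) (hA' : Aᶜ.Infinite) :
    indeps (N A) ∉ D (univ : Set α) := by
  rintro ⟨M, hE, hM, hI⟩
  have h : M = N A := by
    apply Matroid.ext_indep (hE.trans (N_ground A).symm)
    intro X _
    have : X ∈ indeps (N A) ↔ X ∈ indeps M := by rw [hI]
    exact this.symm
  subst h
  rcases hM with h | h
  · have h1 : (N A).Indep Aᶜ := by
      apply Matroid.indep_of_forall_finite_subset_indep
      intro F hF hf
      rw [N_indep hA'.nonempty]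
      constructor
      · rw [Set.disjoint_iff_inter_eq_empty.1
          (Set.disjoint_of_subset_left hF disjoint_compl_left)]
        exact subsingleton_empty
      · obtain ⟨c, hc, hcF⟩ := (hA'.sdiff hf).nonempty
        exact ⟨c, hc, hcF⟩
    rw [N_indep hA'.nonempty] at h1
    obtain ⟨-, c, hc, hc'⟩ := h1
    exact hc' hc
  · have h1 : (N A)✶.Indep A := by
      apply Matroid.indep_of_forall_finite_subset_indep
      intro F hF hf
      obtain ⟨a, ha, haF⟩ := (hA.sdiff hf).nonempty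
      obtain ⟨c, hc⟩ := hA'.nonempty
      have hi : (N A).Indep ({a} ∪ (Aᶜ \ {c})) := by
        rw [N_indep hA'.nonempty]
        refine ⟨?_, c, hc, ?_⟩
        · rintro x ⟨hx | hx, hxA⟩ y ⟨hy | hy, hyA⟩
          · rw [mem_singleton_iff.1 hx, mem_singleton_iff.1 hy]
          · exact absurd hyA hy.1
          · exact absurd hxA hx.1
          · exact absurd hxA hx.1
        · rintro (h' | h')
          · rw [mem_singleton_iff.1 h'] at hc
            exact hc ha
          · exact h'.2 rfl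
      obtain ⟨B, hB, hBs⟩ := hi.exists_isBase_superset
      rw [Matroid.dual_indep_iff_exists', N_ground]
      refine ⟨subset_univ _, B, hB, ?_⟩
      rw [Set.disjoint_left]
      intro x hxF hxB
      have h2 := ((N_indep hA'.nonempty).1 hB.indep).1
      have h3 : a ∈ B ∩ A := ⟨hBs (Or.inl rfl), ha⟩
      have h4 : x = a := h2 ⟨hxB, hF hxF⟩ h3
      rw [h4] at hxF
      exact haF hxF
    rw [Matroid.dual_indep_iff_exists'] at h1
    obtain ⟨-, B, hB, hd⟩ := h1
    obtain ⟨a, ha⟩ := hA.nonempty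
    have h2 : (N A).Indep (insert a B) := by
      rw [N_indep hA'.nonempty]
      obtain ⟨-, c, hc, hcB⟩ := (N_indep hA'.nonempty).1 hB.indep
      refine ⟨?_, c, hc, ?_⟩
      · rintro x ⟨hx | hx, hxA⟩ y ⟨hy | hy, hyA⟩
        · rw [hx, hy]
        · exact absurd hy (Set.disjoint_left.1 hd hyA)
        · exact absurd hx (Set.disjoint_left.1 hd hxA)
        · exact absurd hx (Set.disjoint_left.1 hd hxA)
      · rintro (h' | h')
        · rw [h'] at hc
          exact hc ha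
        · exact hcB h'
    have h3 := hB.eq_of_subset_indep h2 (subset_insert _ _)
    have h4 : a ∈ B := by rw [h3]; exact mem_insert _ _
    exact Set.disjoint_left.1 hd ha h4

/-- **Theorem.** On every infinite set `S` (the type `α`) there is an admissible system which
contains all independence spaces and which misses some B-matroid. -/
theorem result (α : Type u) [Infinite α] : ∃ D : Set α → Set (Set (Set α)), IsAdmissible D ∧
    (∀ W 𝓘, IsIndependenceSpace W 𝓘 → 𝓘 ∈ D W) ∧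
    ∃ W 𝓘, IsBMatroid W 𝓘 ∧ 𝓘 ∉ D W := by
  obtain ⟨A, hA, hA'⟩ : ∃ A : Set α, A.Infinite ∧ Aᶜ.Infinite := by
    have f := Infinite.natEmbedding α
    refine ⟨range fun n : ℕ => f (2 * n), ?_, ?_⟩
    · apply Set.infinite_range_of_injective
      intro m n h
      have := f.injective h
      omega
    · have h1 : (range fun n : ℕ => f (2 * n + 1)).Infinite := by
        apply Set.infinite_range_of_injective
        intro m n h
        have := f.injective h
        omega
      apply h1.mono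
      rintro _ ⟨n, rfl⟩ ⟨m, hm⟩
      have := f.injective hm
      omega
  refine ⟨D, isAdmissible_D, fun W 𝓘 h => mem_D_of_isIndependenceSpace h, univ, indeps (N A), ?_,
    not_mem_D hA hA'⟩
  have := isBMatroid_indeps (N A)
  rwa [N_ground] at this

end Pool.Agent.Results.MP_cb2a9f_co.FinitaryOrDual
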